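import Mathlib
import Pool.Agent.Helper79_MT4.Stmt

/-! # MT4: SPGEN, generation of the special unitary group of the blocks -/

set_option autoImplicit false

namespace Pool.Agent.MT4.H81

open Module LinearMap Polynomial Pool.Agent.MT4

universe u v w

theorem det_block {K : Type u} {V : Type v} [Field K] [AddCommGroup V] [Module K V]
    [FiniteDimensional K V] (E A : End K V) (hE : E * E = E) (hAE : A * E = E * A) :
    ∃ T : End K (LinearMap.range E), (∀ x : LinearMap.range E, (T x : V) = A x) ∧
      LinearMap.det (A * E + (1 - E)) = LinearMap.det T := by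
  have hE' : ∀ x ∈ LinearMap.range E, E x = x := by
    rintro x ⟨y, rfl⟩
    exact LinearMap.congr_fun hE y
  have hA' : ∀ x, A (E x) = E (A x) := fun x => LinearMap.congr_fun hAE x
  have happ : ∀ x, (A * E + (1 - E)) x = A (E x) + (x - E x) := by
    intro x
    simp [LinearMap.add_apply, LinearMap.sub_apply, Module.End.mul_apply]
  have he : LinearMap.range E ≤ (LinearMap.range E).comap (A * E + (1 - E)) := by
    intro x hx
    rw [Submodule.mem_comap, happ, hE' x hx, sub_self, add_zero, ← hE' x hx, hA']
    exact LinearMap.mem_range_self _ _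
  refine ⟨(A * E + (1 - E)).restrict he, ?_, ?_⟩
  · intro x
    rw [LinearMap.coe_restrict_apply, happ, hE' x x.2, sub_self, add_zero]
  · rw [LinearMap.det_eq_det_mul_det (LinearMap.range E) _ he]
    have h1 : (LinearMap.range E).mapQ (LinearMap.range E) (A * E + (1 - E)) he =
        LinearMap.id := by
      apply Submodule.linearMap_qext
      ext x
      rw [LinearMap.comp_apply, LinearMap.comp_apply, Submodule.mkQ_apply, Submodule.mapQ_apply,
        LinearMap.id_apply, Submodule.Quotient.eq, happ]
      have h2 : A (E x) + (x - E x) - x = E (A x - x) := by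
        rw [map_sub, hA']
        abel
      rw [h2]
      exact LinearMap.mem_range_self _ _
    rw [h1, LinearMap.det_id, mul_one]

theorem spgen (hSl : SlGenStmt.{u, v}) : SpGenStmt.{u, v, w} := by
  intro K V ι _ _ _ _ _ _ _ ψ e σ hnd hsk hidem horth hone hσσ hσ hadj S hmul h1 hrr A hAiso hAe
    hdet
  have hid : ∀ i x, e i (e i x) = e i x := fun i x => LinearMap.congr_fun (hidem i) x
  have hor : ∀ i j x, i ≠ j → e i (e j x) = 0 := fun i j x h => LinearMap.congr_fun (horth i j h) x
  have hne : ∀ i j x y, e i x = x → e j y = y → j ≠ σ i → ψ x y = 0 := by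
    intro i j x y hx hy hj
    rw [← hx, hadj, ← hy, hor _ _ _ (Ne.symm hj), map_zero]
  have hself : ∀ x, ψ x x = 0 := by
    intro x
    have h := hsk x x
    have h2 : (2 : K) * ψ x x = 0 := by linear_combination h
    exact (mul_eq_zero.1 h2).resolve_left two_ne_zero
  have hzero : ∀ i j x, e j x = x → i ≠ j → e i x = 0 := by
    intro i j x hx hij
    rw [← hx, hor _ _ _ hij]
  -- the elements of a block
  have key : ∀ i, ∀ T : End K (LinearMap.range (e i)), LinearMap.det T = 1 →
      ∃ B ∈ S, (∀ x y, ψ (B x) (B y) = ψ x y) ∧ (∀ j x, B (e j x) = e j (B x)) ∧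
        (∀ x : LinearMap.range (e i), B x = T x) ∧
        (∀ j, j ≠ i → j ≠ σ i → ∀ x, e j x = x → B x = x) := by
    intro i T hT
    refine hSl K (LinearMap.range (e i)) {T | ∃ B ∈ S, (∀ x y, ψ (B x) (B y) = ψ x y) ∧
      (∀ j x, B (e j x) = e j (B x)) ∧
        (∀ x : LinearMap.range (e i), B x = T x) ∧
        (∀ j, j ≠ i → j ≠ σ i → ∀ x, e j x = x → B x = x)} ?_ ?_ ?_ T hT
    · rintro T1 ⟨B1, hB1, h11, h12, h13, h14⟩ T2 ⟨B2, hB2, h21, h22, h23, h24⟩
      refine ⟨B1 * B2, hmul _ hB1 _ hB2, ?_, ?_, ?_, ?_⟩
      · intro x y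
        rw [Module.End.mul_apply, Module.End.mul_apply, h11, h21]
      · intro j x
        rw [Module.End.mul_apply, Module.End.mul_apply, h22, h12]
      · intro x
        rw [Module.End.mul_apply, Module.End.mul_apply, h23, h13]
      · intro j hj1 hj2 x hx
        rw [Module.End.mul_apply, h24 j hj1 hj2 x hx, h14 j hj1 hj2 x hx]
    · refine ⟨1, h1, ?_, ?_, ?_, ?_⟩
      · intro x y; rfl
      · intro j x; rfl
      · intro x; rfl
      · intro j _ _ x _; rfl
    · intro x θ hθ
      have hx : e i (x : V) = x := by
        obtain ⟨y, hy⟩ := x.2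
        rw [← hy, hid]
      let θ' : V →ₗ[K] K := θ ∘ₗ (e i).rangeRestrict
      have hθ' : ∀ y : LinearMap.range (e i), θ' y = θ y := by
        intro y
        have hy : e i (y : V) = y := by
          obtain ⟨z, hz⟩ := y.2
          rw [← hz, hid]
        have : (e i).rangeRestrict (y : V) = y := Subtype.ext hy
        change θ ((e i).rangeRestrict (y : V)) = θ y
        rw [this]
      have hθe : ∀ y, θ' (e i y) = θ' y := by
        intro y
        have : (e i).rangeRestrict (e i y) = (e i).rangeRestrict y := Subtype.ext (hid i y)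
        change θ ((e i).rangeRestrict (e i y)) = θ ((e i).rangeRestrict y)
        rw [this]
      have hinj : Function.Injective ψ := by
        rw [injective_iff_map_eq_zero]
        intro z hz
        exact hnd z fun y => by rw [hz]; rfl
      have hsurj : Function.Surjective ψ :=
        (LinearMap.injective_iff_surjective_of_finrank_eq_finrank
          (Subspace.dual_finrank_eq (K := K) (V := V)).symm).1 hinj
      obtain ⟨b, hb⟩ := hsurj θ'
      have hb' : ∀ y, ψ b y = θ' y := fun y => by rw [hb]
      have heb : e (σ i) b = b := by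
        rw [← sub_eq_zero]
        apply hnd
        intro y
        rw [map_sub, LinearMap.sub_apply, hadj, hσσ, hb', hb', hθe, sub_self]
      have hab : ψ (x : V) b = 0 := by
        rw [hsk, hb', hθ', hθ, neg_zero]
      have hba : ψ b (x : V) = 0 := by
        rw [hb', hθ', hθ]
      have happ : ∀ z, (1 + rr ψ (x : V) b) z = z + (ψ (x : V) z • b + ψ b z • (x : V)) := by
        intro z
        simp [rr]
      refine ⟨1 + rr ψ (x : V) b, hrr i x b hx heb hab, ?_, ?_, ?_, ?_⟩
      · intro z y
        rw [happ, happ]
        simp only [map_add, map_smul, LinearMap.add_apply, LinearMap.smul_apply, smul_eq_mul]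
        rw [hself, hself, hab, hba, hsk z b, hsk z (x : V)]
        ring
      · intro j z
        rw [happ, happ, map_add, map_add, map_smul, map_smul]
        have h3 : ψ (x : V) (e j z) = ψ (e (σ j) (x : V)) z := by rw [hadj, hσσ]
        have h4 : ψ b (e j z) = ψ (e (σ j) b) z := by rw [hadj, hσσ]
        rw [h3, h4]
        by_cases hji : j = i
        · subst hji
          rw [heb, hx, hzero _ _ _ hx (hσ j), hzero _ _ _ heb (Ne.symm (hσ j)), map_zero,
            LinearMap.zero_apply, zero_smul, smul_zero]
        · by_cases hjs : j = σ i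
          · subst hjs
            rw [hσσ, hx, heb, hzero _ _ _ hx (hσ i), hzero _ _ _ heb (Ne.symm (hσ i)), map_zero,
              LinearMap.zero_apply, zero_smul, smul_zero]
          · have h5 : σ j ≠ i := fun h => hjs (by rw [← h, hσσ])
            have h6 : σ j ≠ σ i := fun h => hji (by rw [← hσσ j, h, hσσ])
            rw [hzero _ _ _ hx h5, hzero _ _ _ heb h6, hzero _ _ _ hx hji, hzero _ _ _ heb hjs,
              map_zero, LinearMap.zero_apply, zero_smul, zero_smul, smul_zero, smul_zero]
      · intro y
        have hy : e i (y : V) = y := by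
          obtain ⟨z, hz⟩ := y.2
          rw [← hz, hid]
        rw [happ, hne i i x y hx hy (Ne.symm (hσ i)), hb', hθ', zero_smul, zero_add]
        simp
      · intro j hj1 hj2 y hy
        rw [happ, hne i j x y hx hy hj2, hne (σ i) j b y heb hy (by rw [hσσ]; exact hj1), zero_smul,
          zero_smul, add_zero, add_zero]
  -- surjectivity of A
  have hAinj : Function.Injective A := by
    rw [injective_iff_map_eq_zero]
    intro z hz
    apply hnd
    intro y
    rw [← hAiso, hz, map_zero, LinearMap.zero_apply]
  have hAsurj : Function.Surjective A := LinearMap.injective_iff_surjective.1 hAinj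
  have hAe' : ∀ i x, A (e i x) = e i (A x) := fun i x => LinearMap.congr_fun (hAe i) x
  -- the block of A
  have key2 : ∀ i, ∃ B ∈ S, (∀ x, e i x = x → B x = A x) ∧
      (∀ x, e (σ i) x = x → B x = A x) ∧
      (∀ j, j ≠ i → j ≠ σ i → ∀ x, e j x = x → B x = x) := by
    intro i
    obtain ⟨T, hT1, hT2⟩ := det_block (e i) A (hidem i) (hAe i)
    rw [hdet i] at hT2
    obtain ⟨B, hBS, hB1, hB2, hB3, hB4⟩ := key i T hT2.symm
    have hB5 : ∀ x, e i x = x → B x = A x := by
      intro x hx
      have := hB3 ⟨x, ⟨x, hx⟩⟩
      rw [hT1] at this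
      exact this
    refine ⟨B, hBS, hB5, ?_, hB4⟩
    intro x hx
    rw [← sub_eq_zero]
    apply hnd
    intro y
    have h3 : e (σ i) (B x - A x) = B x - A x := by
      rw [map_sub, ← hB2, ← hAe', hx]
    rw [← h3, hadj, hσσ]
    obtain ⟨z, hz⟩ := hAsurj (e i y)
    have hz2 : A (e i z) = e i y := by rw [hAe', hz, hid]
    rw [← hz2, map_sub, LinearMap.sub_apply, hAiso, ← hB5 (e i z) (hid i z), hB1, sub_self]
  -- the product
  have key3 : ∀ n : ℕ, ∀ s : Finset ι, s.card ≤ n → (∀ i ∈ s, σ i ∈ s) →
      ∃ B ∈ S, (∀ j ∈ s, ∀ x, e j x = x → B x = A x) ∧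
        (∀ j, j ∉ s → ∀ x, e j x = x → B x = x) := by
    intro n
    induction n with
    | zero =>
      intro s hs _
      have hs0 : s = ∅ := by
        rw [← Finset.card_eq_zero]
        omega
      subst hs0
      refine ⟨1, h1, ?_, ?_⟩
      · intro j hj
        simp at hj
      · intro j _ x _
        rfl
    | succ n ih =>
      intro s hs hst
      rcases s.eq_empty_or_nonempty with hs0 | ⟨i, hi⟩
      · subst hs0
        exact ih ∅ (by simp) hst
      · have hcard : ((s.erase i).erase (σ i)).card ≤ n := by
          have h4 := Finset.card_erase_lt_of_mem hi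
          have h5 := Finset.card_erase_le (s := s.erase i) (a := σ i)
          omega
        have hst' : ∀ j ∈ (s.erase i).erase (σ i), σ j ∈ (s.erase i).erase (σ i) := by
          intro j hj
          rw [Finset.mem_erase, Finset.mem_erase] at hj ⊢
          refine ⟨?_, ?_, hst j hj.2.2⟩
          · intro h
            apply hj.2.1
            rw [← hσσ j, h, hσσ]
          · intro h
            apply hj.1
            rw [← hσσ j, h]
        obtain ⟨B', hB'S, hB'1, hB'2⟩ := ih _ hcard hst'
        obtain ⟨B, hBS, hB1, hB2, hB3⟩ := key2 i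
        refine ⟨B' * B, hmul _ hB'S _ hBS, ?_, ?_⟩
        · intro j hj x hx
          have hAx : e j (A x) = A x := by rw [← hAe', hx]
          rw [Module.End.mul_apply]
          by_cases hji : j = i
          · subst hji
            rw [hB1 x hx]
            apply hB'2 j _ _ hAx
            simp
          · by_cases hjs : j = σ i
            · subst hjs
              rw [hB2 x hx]
              apply hB'2 (σ i) _ _ hAx
              simp
            · rw [hB3 j hji hjs x hx]
              exact hB'1 j (by simp [hji, hjs, hj]) x hx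
        · intro j hj x hx
          have hji : j ≠ i := fun h => hj (h ▸ hi)
          have hjs : j ≠ σ i := fun h => hj (h ▸ hst i hi)
          rw [Module.End.mul_apply, hB3 j hji hjs x hx]
          exact hB'2 j (by simp [hj]) x hx
  obtain ⟨B, hBS, hB1, _⟩ := key3 _ Finset.univ le_rfl (fun i _ => Finset.mem_univ _)
  have hAB : A = B := by
    ext x
    have hx : x = ∑ i, e i x := by
      conv_lhs => rw [← Module.End.one_apply (R := K) x, ← hone, LinearMap.sum_apply]
    rw [hx, map_sum, map_sum]
    exact Finset.sum_congr rfl fun i _ => (hB1 i (Finset.mem_univ _) _ (hid i x)).symm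
  rw [hAB]
  exact hBS

end Pool.Agent.MT4.H81
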