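import Pool.Agent.Helper79_MT4.Stmt

/-! MT4: module SIGN. -/

set_option autoImplicit false

namespace Pool.Agent.MT4.H81

open Module LinearMap Polynomial

universe u v w

section
variable {K : Type u} {V : Type v} [Field K] [AddCommGroup V] [Module K V]

/-- the functional `X ↦ trace (X * e)` -/
noncomputable def trf (e : End K V) : End K V →ₗ[K] K :=
  (trace K V) ∘ₗ (LinearMap.mulRight K e)

theorem trf_apply (e X : End K V) : trf e X = trace K V (X * e) := rfl

end

theorem sign (hCur : CurStmt.{u, v}) (hOrb : OrbStmt.{u, v, w}) (hIrr : IrrStmt.{u, v, w})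
    (hRk : RkStmt.{u, v}) : SignStmt.{u, v, w} := by
  intro K V ι _ _ _ _ _ ψ e σ g N hB hN i j H
  obtain ⟨hconst, hadd, hsub, hmul, _, _, hlin⟩ := hCur K V
  obtain ⟨_, hR0, _, _, _⟩ := hOrb K V ι ψ e σ g N hB hN
  have hg : ∀ M ∈ Orb e g N, M ∈ g := fun M hM => (hR0 M hM).1
  -- polynomial functions
  have hPoly : ∀ (F G : End K V →ₗ[K] K), PolyOn fun A B C : End K V => F (A * B * C) + G (B * A * C) := by
    intro F G p q r hp hq hr
    obtain ⟨P, hP⟩ := hlin F _ (hmul _ _ (hmul _ _ hp hq) hr)
    obtain ⟨Q, hQ⟩ := hlin G _ (hmul _ _ (hmul _ _ hq hp) hr)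
    refine ⟨P + Q, fun s => ?_⟩
    rw [Polynomial.eval_add, ← hP s, ← hQ s]
  have hcube : ∀ k, ∀ A ∈ Orb e g N, ∀ B ∈ Orb e g N, ∀ C ∈ Orb e g N,
      trace K V (A * B * C * e k) * trace K V (B * A * C * e k) =
        trace K V (A * B * e k) * trace K V (B * C * e k) * trace K V (C * A * e k) := by
    intro k A hA B hB' C hC
    have h := (hRk K V (A * e k) (B * e k) (C * e k) ((hR0 A hA).2.2 k) ((hR0 B hB').2.2 k)
      ((hR0 C hC).2.2 k)).2.1
    have cA := hB.comm A (hg A hA) k
    have cB := hB.comm B (hg B hB') k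
    have cC := hB.comm C (hg C hC) k
    have ii := hB.idem k
    have two : ∀ X Y : End K V, Y * e k = e k * Y → X * e k * (Y * e k) = X * Y * e k := by
      intro X Y hY
      calc X * e k * (Y * e k) = X * (e k * Y) * e k := by simp only [mul_assoc]
        _ = X * (Y * e k) * e k := by rw [hY]
        _ = X * Y * (e k * e k) := by simp only [mul_assoc]
        _ = X * Y * e k := by rw [ii]
    rw [two A B cB, two (A * B) C cC, two B A cA, two (B * A) C cC, two B C cC, two C A cA] at h
    exact h
  have hpair : ∀ A ∈ Orb e g N, ∀ B ∈ Orb e g N,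
      trace K V (A * B * e i) = trace K V (A * B * e j) := fun A hA B hB' => H A (hg A hA) B hB'
  have hdiff : ∀ A ∈ Orb e g N, ∀ B ∈ Orb e g N, ∀ C ∈ Orb e g N,
      trace K V (A * B * C * e i) - trace K V (B * A * C * e i) =
        trace K V (A * B * C * e j) - trace K V (B * A * C * e j) := by
    intro A hA B hB' C hC
    have h := H (A * B - B * A) (hB.br A (hg A hA) B (hg B hB')) C hC
    simpa only [sub_mul, map_sub] using h
  have hsq : ∀ A ∈ Orb e g N, ∀ B ∈ Orb e g N, ∀ C ∈ Orb e g N,
      ((trace K V (A * B * C * e i) - trace K V (A * B * C * e j)) +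
        (trace K V (B * A * C * e i) - trace K V (B * A * C * e j))) *
      ((trace K V (A * B * C * e i) + trace K V (A * B * C * e j)) +
        (trace K V (B * A * C * e i) + trace K V (B * A * C * e j))) = 0 := by
    intro A hA B hB' C hC
    have h1 := hcube i A hA B hB' C hC
    have h2 := hcube j A hA B hB' C hC
    rw [hpair A hA B hB', hpair B hB' C hC, hpair C hC A hA, ← h2] at h1
    have h3 := hdiff A hA B hB' C hC
    linear_combination (trace K V (A * B * C * e i) - trace K V (B * A * C * e i) +
      (trace K V (A * B * C * e j) - trace K V (B * A * C * e j))) * h3 + 4 * h1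
  have h2 : (2 : K) ≠ 0 := two_ne_zero
  have hP1 := hPoly (trf (e i) - trf (e j)) (trf (e i) - trf (e j))
  have hP2 := hPoly (trf (e i) + trf (e j)) (trf (e i) + trf (e j))
  rcases hIrr K V ι ψ e σ g N hB hN _ _ hP1 hP2 (by
    intro A hA B hB' C hC
    have := hsq A hA B hB' C hC
    simpa only [LinearMap.sub_apply, LinearMap.add_apply, trf_apply] using this) with h | h
  · left
    intro A hA B hB' C hC
    have h3 := h A hA B hB' C hC
    simp only [LinearMap.sub_apply, trf_apply] at h3
    have h4 := hdiff A hA B hB' C hC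
    refine mul_left_cancel₀ h2 ?_
    linear_combination h3 + h4
  · right
    intro A hA B hB' C hC
    have h3 := h A hA B hB' C hC
    simp only [LinearMap.add_apply, trf_apply] at h3
    have h4 := hdiff A hA B hB' C hC
    refine mul_left_cancel₀ h2 ?_
    linear_combination h3 + h4

end Pool.Agent.MT4.H81
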