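import Pool.Agent.Helper79_MT4.Stmt

/-! MT4: module SL1. -/

set_option autoImplicit false

namespace Pool.Agent.MT4.H81

open Module LinearMap Polynomial

universe u v w

section
variable {K : Type u} {W : Type v} [Field K] [AddCommGroup W] [Module K W]

theorem sr_mul (w v : W) (f k : W →ₗ[K] K) :
    (f.smulRight w : End K W) * (k.smulRight v : End K W) = f v • (k.smulRight w : End K W) := by
  ext z
  simp
  rw [smul_smul, smul_smul, mul_comm]

/-- the normalized case -/
theorem sl1_core [CharZero K] (L : Submodule K (End K W)) (hbr : ∀ X ∈ L, ∀ Y ∈ L, X * Y - Y * X ∈ L)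
    (w v p : W) (f k q : W →ₗ[K] K) (hfw : f w = 0) (hkv : k v = 0) (hqp : q p = 0) (hfv : f v = 1)
    (hkw : k w = 1) (hA : (f.smulRight w : End K W) ∈ L) (hB : (k.smulRight v : End K W) ∈ L)
    (hC : (q.smulRight p : End K W) ∈ L) (hAC : f p * q w ≠ 0) (hS : k p * q w + f p * q v ≠ 0) :
    ∃ (x : W) (f φ : W →ₗ[K] K), x ≠ 0 ∧ f ≠ 0 ∧ (∀ c : K, φ ≠ c • f) ∧ f x = 0 ∧ φ x = 0 ∧
      (f.smulRight x : End K W) ∈ L ∧ (φ.smulRight x : End K W) ∈ L := by
  obtain ⟨p0, hp0⟩ : ∃ p0, p0 = p - k p • w - f p • v := ⟨_, rfl⟩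
  obtain ⟨q0, hq0⟩ : ∃ q0 : W →ₗ[K] K, q0 = q - q w • k - q v • f := ⟨_, rfl⟩
  have fp0 : f p0 = 0 := by simp [hp0, hfw, hfv]
  have kp0 : k p0 = 0 := by simp [hp0, hkw, hkv]
  have q0w : q0 w = 0 := by simp [hq0, hfw, hkw]
  have q0v : q0 v = 0 := by simp [hq0, hfv, hkv]
  have q0p0 : q0 p0 = -(k p * q w + f p * q v) := by
    rw [hp0]
    simp only [map_sub, map_smul, q0w, q0v, smul_zero, sub_zero]
    simp only [hq0, LinearMap.sub_apply, LinearMap.smul_apply, smul_eq_mul, hqp]
    ring
  -- the element `y`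
  obtain ⟨φ, hφ⟩ : ∃ φ : W →ₗ[K] K, φ = f p • q0 := ⟨_, rfl⟩
  obtain ⟨x, hx⟩ : ∃ x : W, x = -(q w) • p0 := ⟨_, rfl⟩
  have φw : φ w = 0 := by simp [hφ, q0w]
  have φv : φ v = 0 := by simp [hφ, q0v]
  have fx : f x = 0 := by simp [hx, fp0]
  have kx : k x = 0 := by simp [hx, kp0]
  have φx : φ x = f p * q w * (k p * q w + f p * q v) := by
    simp only [hφ, hx, LinearMap.smul_apply, map_smul, smul_eq_mul, q0p0]
    ring
  have φx0 : φ x ≠ 0 := by
    rw [φx]
    exact mul_ne_zero hAC hS
  set A : End K W := f.smulRight w with hAdef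
  set B : End K W := k.smulRight v with hBdef
  set C : End K W := q.smulRight p with hCdef
  have hy : (φ.smulRight w : End K W) + (f.smulRight x : End K W) ∈ L := by
    have h1 := hbr A hA C hC
    have h2 := hbr A hA B hB
    have h3 : (φ.smulRight w : End K W) + (f.smulRight x : End K W) =
        (A * C - C * A) - (f p * q w) • (A * B - B * A) - (f p * q v - k p * q w) • A := by
      rw [hAdef, hBdef, hCdef, sr_mul, sr_mul, sr_mul, sr_mul, hfv, hkw]
      ext z
      simp only [hφ, hx, hp0, hq0, LinearMap.add_apply, LinearMap.sub_apply, LinearMap.smul_apply,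
        LinearMap.smulRight_apply, smul_eq_mul]
      module
    rw [h3]
    exact L.sub_mem (L.sub_mem h1 (L.smul_mem _ h2)) (L.smul_mem _ hA)
  set y : End K W := (φ.smulRight w : End K W) + (f.smulRight x : End K W) with hydef
  have hy1 := hbr y hy B hB
  have hy2 := hbr y hy _ hy1
  have hy3 := hbr y hy _ hy2
  have e1 : y * B - B * y = (k.smulRight x : End K W) - (φ.smulRight v : End K W) := by
    rw [hydef, hBdef, add_mul, mul_add, sr_mul, sr_mul, sr_mul, sr_mul, φv, hfv, hkw, kx]
    simp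
  have e2 : y * (y * B - B * y) - (y * B - B * y) * y =
      φ x • ((k.smulRight w : End K W) + (f.smulRight v : End K W)) -
        (2 : K) • (φ.smulRight x : End K W) := by
    rw [e1, hydef]
    simp only [add_mul, mul_add, sub_mul, mul_sub, sr_mul, φv, hfv, hkw, kx, φw, fx]
    module
  have e3 : y * (y * (y * B - B * y) - (y * B - B * y) * y) -
      (y * (y * B - B * y) - (y * B - B * y) * y) * y =
      (3 * φ x) • ((f.smulRight x : End K W) - (φ.smulRight w : End K W)) := by
    rw [e2, hydef]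
    simp only [add_mul, mul_add, sub_mul, mul_sub, smul_mul_assoc, mul_smul_comm, sr_mul, φv, hfv,
      hkw, kx, φw, fx, hfw]
    module
  rw [e3] at hy3
  have h3 : (3 * φ x) ≠ 0 := mul_ne_zero three_ne_zero φx0
  have hz : (f.smulRight x : End K W) - (φ.smulRight w : End K W) ∈ L := by
    have := L.smul_mem (3 * φ x)⁻¹ hy3
    rwa [smul_smul, inv_mul_cancel₀ h3, one_smul] at this
  have hw : (φ.smulRight w : End K W) ∈ L := by
    have h4 := L.smul_mem (2 : K)⁻¹ (L.sub_mem hy hz)
    have h5 : (2 : K)⁻¹ • (y - ((f.smulRight x : End K W) - (φ.smulRight w : End K W))) =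
        (φ.smulRight w : End K W) := by
      rw [hydef]
      have : (φ.smulRight w : End K W) + (f.smulRight x : End K W) -
          ((f.smulRight x : End K W) - (φ.smulRight w : End K W)) =
          (2 : K) • (φ.smulRight w : End K W) := by module
      rw [this, smul_smul, inv_mul_cancel₀ two_ne_zero, one_smul]
    rwa [h5] at h4
  refine ⟨w, f, φ, ?_, ?_, ?_, hfw, φw, hA, hw⟩
  · rintro rfl
    simp at hkw
  · rintro rfl
    simp at hfv
  · intro c hc
    have h6 : φ v = c := by rw [hc]; simp [hfv]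
    rw [φv] at h6
    apply φx0
    rw [hc, ← h6]
    simp

end

theorem sl1 : Sl1Stmt.{u, v} := by
  intro K W _ _ _ _ _ L hbr A hA B hB C hC rA rB rC sA sB sC hAB hAC hS
  obtain ⟨w, f, hw, hf, rfl⟩ := rA
  obtain ⟨v, k, hv, hk, rfl⟩ := rB
  obtain ⟨p, q, hp, hq, rfl⟩ := rC
  have hsq : ∀ (w : W) (f : W →ₗ[K] K), w ≠ 0 → f ≠ 0 →
      (f.smulRight w : End K W) * (f.smulRight w : End K W) = 0 → f w = 0 := by
    intro w f hw hf h
    rw [sr_mul] at h
    by_contra hne
    obtain ⟨z, hz⟩ : ∃ z, f z ≠ 0 := by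
      by_contra hcon
      push Not at hcon
      exact hf (LinearMap.ext hcon)
    have := LinearMap.congr_fun h z
    simp only [LinearMap.smul_apply, LinearMap.smulRight_apply, LinearMap.zero_apply] at this
    rcases smul_eq_zero.1 this with h | h
    · exact hne h
    · rcases smul_eq_zero.1 h with h | h
      · exact hz h
      · exact hw h
  have hfw := hsq w f hw hf sA
  have hkv := hsq v k hv hk sB
  have hqp := hsq p q hp hq sC
  have htr : ∀ (w : W) (f : W →ₗ[K] K), trace K W (f.smulRight w : End K W) = f w := by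
    intro w f
    exact LinearMap.trace_smulRight f w
  rw [sr_mul, map_smul, htr, smul_eq_mul] at hAB hAC
  rw [sr_mul, smul_mul_assoc, sr_mul, map_smul, map_smul, htr, sr_mul, smul_mul_assoc, sr_mul,
    map_smul, map_smul, htr] at hS
  simp only [smul_eq_mul] at hS
  have hs : f v ≠ 0 := left_ne_zero_of_mul hAB
  have ht : k w ≠ 0 := right_ne_zero_of_mul hAB
  refine sl1_core L hbr (f v • w) v p ((f v)⁻¹ • f) ((f v * k w)⁻¹ • k) q ?_ ?_ hqp ?_ ?_ ?_ ?_ hC
    ?_ ?_
  · simp [hfw]
  · simp [hkv]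
  · simp [hs]
  · simp only [LinearMap.smul_apply, map_smul, smul_eq_mul]
    field_simp
  · have : (((f v)⁻¹ • f).smulRight (f v • w) : End K W) = f.smulRight w := by
      ext z
      simp only [LinearMap.smulRight_apply, LinearMap.smul_apply, smul_eq_mul, smul_smul]
      congr 1
      field_simp
    rw [this]
    exact hA
  · have : (((f v * k w)⁻¹ • k).smulRight v : End K W) = (f v * k w)⁻¹ • k.smulRight v := by
      ext z
      simp only [LinearMap.smulRight_apply, LinearMap.smul_apply, smul_eq_mul, smul_smul]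
    rw [this]
    exact L.smul_mem _ hB
  · simp only [LinearMap.smul_apply, map_smul, smul_eq_mul]
    have h1 : (f v)⁻¹ * f p * (f v * q w) = f p * q w := by
      field_simp
    rw [h1]
    exact hAC
  · simp only [LinearMap.smul_apply, map_smul, smul_eq_mul]
    intro h
    apply hS
    have h2 : (f v * k w)⁻¹ * k p * (f v * q w) + (f v)⁻¹ * f p * q v =
        (f v * k w)⁻¹ * (f v * (k p * q w) + k w * (f p * q v)) := by
      field_simp
    rw [h2] at h
    rcases mul_eq_zero.1 h with h | h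
    · exact absurd h (inv_ne_zero hAB)
    · linear_combination h

end Pool.Agent.MT4.H81
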